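import Mathlib

/-! The area formula with multiplicity for maps between spaces of the same dimension. -/

namespace Pool.Agent.Lib.MP_823829_an.H98

open MeasureTheory Set Function
open scoped ENNReal NNReal

variable {E : Type*} [NormedAddCommGroup E] [NormedSpace ℝ E] [FiniteDimensional ℝ E]
  [MeasurableSpace E] [BorelSpace E]

omit [MeasurableSpace E] [BorelSpace E] in
lemma exists_inj_radius (A : E →L[ℝ] E) :
    ∃ r : ℝ≥0, r ≠ 0 ∧ (A.det ≠ 0 → ∀ (f : E → E) (s : Set E),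
      ApproximatesLinearOn f A s r → InjOn f s) := by
  by_cases h : A.det = 0
  · exact ⟨1, one_ne_zero, fun h' => absurd h h'⟩
  let B : E ≃L[ℝ] E := A.toContinuousLinearEquivOfDetNeZero h
  rcases subsingleton_or_nontrivial E with hE | hE
  · exact ⟨1, one_ne_zero, fun _ f s _ => fun x _ y _ _ => Subsingleton.elim x y⟩
  have hp : 0 < ‖(B.symm : E →L[ℝ] E)‖₊⁻¹ := inv_pos.2 B.nnnorm_symm_pos
  refine ⟨‖(B.symm : E →L[ℝ] E)‖₊⁻¹ / 2, (half_pos hp).ne', fun _ f s hf => ?_⟩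
  have hf' : ApproximatesLinearOn f (B : E →L[ℝ] E) s (‖(B.symm : E →L[ℝ] E)‖₊⁻¹ / 2) := hf
  exact hf'.injOn (Or.inr (half_lt_self hp))

/-- a partition into pieces on which the map is injective -/
lemma exists_inj_partition {f : E → E} {s : Set E} {f' : E → E →L[ℝ] E}
    (hf' : ∀ x ∈ s, HasFDerivWithinAt f (f' x) s x) (hd : ∀ x ∈ s, (f' x).det ≠ 0) :
    ∃ t : ℕ → Set E, Pairwise (Disjoint on t) ∧ (∀ n, MeasurableSet (t n)) ∧
      (s ⊆ ⋃ n, t n) ∧ ∀ n, InjOn f (s ∩ t n) := by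
  choose r hr0 hr using exists_inj_radius (E := E)
  obtain ⟨t, A, h1, h2, h3, h4, h5⟩ :=
    exists_partition_approximatesLinearOn_of_hasFDerivWithinAt f s f' hf' r hr0
  refine ⟨t, h1, h2, h3, fun n => ?_⟩
  rcases s.eq_empty_or_nonempty with rfl | hs
  · simp
  obtain ⟨y, hy, e⟩ := h5 hs n
  exact hr _ (e ▸ hd y hy) f _ (h4 n)

variable (μ : Measure E) [μ.IsAddHaarMeasure]

lemma area_reg {f : E → E} {s : Set E} {f' : E → E →L[ℝ] E} (hs : MeasurableSet s)
    (hf' : ∀ x ∈ s, HasFDerivWithinAt f (f' x) s x) (hd : ∀ x ∈ s, (f' x).det ≠ 0)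
    {g : E → ℝ≥0∞} (hg : Measurable g) :
    ∫⁻ x in s, ENNReal.ofReal |(f' x).det| * g x ∂μ =
        ∫⁻ y, ∑' x : ↥(s ∩ f ⁻¹' {y}), g x ∂μ ∧
      Measurable fun y => ∑' x : ↥(s ∩ f ⁻¹' {y}), g x := by
  classical
  obtain ⟨t, h1, h2, h3, h4⟩ := exists_inj_partition hf' hd
  have hm : ∀ n, MeasurableSet (s ∩ t n) := fun n => hs.inter (h2 n)
  have hf2 : ∀ n, ∀ x ∈ s ∩ t n, HasFDerivWithinAt f (f' x) (s ∩ t n) x := fun n x hx =>
    (hf' x hx.1).mono inter_subset_left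
  have emb := fun n => measurableEmbedding_of_fderivWithin (hm n) (hf2 n) (h4 n)
  let G : ℕ → E → ℝ≥0∞ := fun n =>
    extend ((s ∩ t n).domRestrict f) (fun x => g x) (fun _ => 0)
  have Gm : ∀ n, Measurable (G n) := fun n =>
    (emb n).measurable_extend (hg.comp measurable_subtype_coe) measurable_const
  have G1 : ∀ n, ∀ x ∈ s ∩ t n, G n (f x) = g x := fun n x hx =>
    (emb n).injective.extend_apply _ _ ⟨x, hx⟩
  have G0 : ∀ n y, y ∉ f '' (s ∩ t n) → G n y = 0 := fun n y hy =>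
    extend_apply' _ _ _ (fun ⟨x, hx⟩ => hy ⟨x, x.2, hx⟩)
  have key : ∀ y, ∑' x : ↥(s ∩ f ⁻¹' {y}), g x = ∑' n, G n y := fun y => by
    have e : s ∩ f ⁻¹' {y} = ⋃ n, (s ∩ t n ∩ f ⁻¹' {y}) := by
      ext x
      simp only [mem_iUnion]
      constructor
      · intro hx
        obtain ⟨n, hn⟩ := mem_iUnion.1 (h3 hx.1)
        exact ⟨n, ⟨hx.1, hn⟩, hx.2⟩
      · rintro ⟨n, hn⟩
        exact ⟨hn.1.1, hn.2⟩
    rw [e, ENNReal.tsum_biUnion (f := g)]
    · refine tsum_congr fun n => ?_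
      by_cases hy : y ∈ f '' (s ∩ t n)
      · obtain ⟨x, hx, rfl⟩ := hy
        have e2 : s ∩ t n ∩ f ⁻¹' {f x} = {x} := by
          ext z
          constructor
          · intro hz
            exact h4 n hz.1 hx hz.2
          · rintro rfl
            exact ⟨hx, rfl⟩
        rw [e2, tsum_singleton, G1 n x hx]
      · have e2 : s ∩ t n ∩ f ⁻¹' {y} = ∅ :=
          eq_empty_of_forall_notMem fun z hz => hy ⟨z, hz.1, hz.2⟩
        rw [e2, tsum_empty, G0 n y hy]
    · intro i _ j _ hij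
      exact (h1 hij).mono (fun z hz => hz.1.2) (fun z hz => hz.1.2)
  simp only [key]
  refine ⟨?_, Measurable.tsum Gm⟩
  rw [lintegral_tsum fun n => (Gm n).aemeasurable]
  have e : s = ⋃ n, s ∩ t n := by rw [← inter_iUnion, inter_eq_left.2 h3]
  conv_lhs => rw [e]
  rw [lintegral_iUnion hm (fun i j hij => (h1 hij).mono inter_subset_right inter_subset_right)]
  refine tsum_congr fun n => ?_
  rw [← setLIntegral_eq_of_support_subset (s := f '' (s ∩ t n)) (f := G n)
    (fun y hy => by by_contra h; exact hy (G0 n y h)),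
    lintegral_image_eq_lintegral_abs_det_fderiv_mul μ (hm n) (hf2 n) (h4 n)]
  exact setLIntegral_congr_fun (hm n) fun x hx => by simp only [G1 n x hx]

/-- the area formula with multiplicity -/
theorem area {f : E → E} {s : Set E} {f' : E → E →L[ℝ] E} (hs : MeasurableSet s)
    (hf' : ∀ x ∈ s, HasFDerivWithinAt f (f' x) s x) {g : E → ℝ≥0∞} (hg : Measurable g) :
    ∫⁻ x in s, ENNReal.ofReal |(f' x).det| * g x ∂μ =
        ∫⁻ y, ∑' x : ↥(s ∩ f ⁻¹' {y}), g x ∂μ ∧
      AEMeasurable (fun y => ∑' x : ↥(s ∩ f ⁻¹' {y}), g x) μ := by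
  have h0 := aemeasurable_ofReal_abs_det_fderivWithin μ hs hf'
  let D : E → ℝ≥0∞ := fun x => ENNReal.ofReal |(f' x).det|
  obtain ⟨N, hN1, hN2, hN3⟩ := exists_measurable_superset_of_null (μ := μ.restrict s)
    (s := {x | D x ≠ h0.mk D x}) (ae_iff.1 h0.ae_eq_mk)
  set r : Set E := (s \ N) ∩ {x | h0.mk D x ≠ 0} with hr
  have rm : MeasurableSet r :=
    (hs.diff hN2).inter (h0.measurable_mk (measurableSet_singleton 0)).compl
  have hD : ∀ x, x ∉ N → D x = h0.mk D x := fun x hx => by_contra fun h => hx (hN1 h)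
  have rs : r ⊆ s := fun x hx => hx.1.1
  obtain ⟨k1, k2⟩ := area_reg μ rm (fun x hx => (hf' x hx.1.1).mono rs) (fun x hx h => by
    apply hx.2
    rw [← hD x hx.1.2]
    simp [D, h]) hg
  have hN4 : μ (s ∩ N) = 0 := by rwa [Measure.restrict_apply hN2, inter_comm] at hN3
  have z1 : μ (f '' (s ∩ N)) = 0 :=
    addHaar_image_eq_zero_of_differentiableOn_of_addHaar_eq_zero μ
      (fun x hx => ((hf' x hx.1).mono inter_subset_left).differentiableWithinAt) hN4
  have z2 : μ (f '' {x ∈ s | (f' x).det = 0}) = 0 :=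
    addHaar_image_eq_zero_of_det_fderivWithin_eq_zero μ
      (fun x hx => (hf' x hx.1).mono (sep_subset _ _)) (fun x hx => hx.2)
  have ae : (fun y => ∑' x : ↥(r ∩ f ⁻¹' {y}), g x) =ᵐ[μ]
      fun y => ∑' x : ↥(s ∩ f ⁻¹' {y}), g x := by
    filter_upwards [compl_mem_ae_iff.2 z1, compl_mem_ae_iff.2 z2] with y y1 y2
    have : r ∩ f ⁻¹' {y} = s ∩ f ⁻¹' {y} := by
      refine Subset.antisymm (inter_subset_inter_left _ rs) fun x hx => ⟨?_, hx.2⟩
      have n1 : x ∉ N := fun h => y1 ⟨x, ⟨hx.1, h⟩, hx.2⟩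
      refine ⟨⟨hx.1, n1⟩, fun h => y2 ⟨x, ⟨hx.1, ?_⟩, hx.2⟩⟩
      rw [← hD x n1] at h
      simpa [D] using h
    rw [this]
  refine ⟨?_, k2.aemeasurable.congr ae⟩
  rw [← lintegral_congr_ae ae, ← k1, ← lintegral_indicator hs, ← lintegral_indicator rm]
  apply lintegral_congr_ae
  filter_upwards [compl_mem_ae_iff.2 hN4] with x hx
  by_cases h1 : x ∈ r
  · rw [indicator_of_mem h1, indicator_of_mem (rs h1)]
  rw [indicator_of_notMem h1]
  by_cases h2 : x ∈ s
  · have n1 : x ∉ N := fun h => hx ⟨h2, h⟩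
    have : D x = 0 := by
      rw [hD x n1]
      by_contra h
      exact h1 ⟨⟨h2, n1⟩, h⟩
    rw [indicator_of_mem h2]
    exact mul_eq_zero_of_left this _
  · exact indicator_of_notMem h2 _

/-- the Jacobian integral counts the preimages -/
theorem area_count {f : E → E} {s : Set E} {f' : E → E →L[ℝ] E} (hs : MeasurableSet s)
    (hf' : ∀ x ∈ s, HasFDerivWithinAt f (f' x) s x) :
    ∫⁻ x in s, ENNReal.ofReal |(f' x).det| ∂μ = ∫⁻ y, ((s ∩ f ⁻¹' {y}).encard : ℝ≥0∞) ∂μ := by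
  have := (area μ hs hf' (g := fun _ => 1) measurable_const).1
  simpa only [mul_one, ENNReal.tsum_set_one] using this

/-- bound for maps with at most `d` preimages -/
theorem area_le {f : E → E} {s T : Set E} {f' : E → E →L[ℝ] E} (hs : MeasurableSet s)
    (hf' : ∀ x ∈ s, HasFDerivWithinAt f (f' x) s x) {d : ℕ}
    (hd : ∀ᵐ y ∂μ, (s ∩ f ⁻¹' {y}).encard ≤ d) (hT : MapsTo f s T) :
    ∫⁻ x in s, ENNReal.ofReal |(f' x).det| ∂μ ≤ d * μ T := by
  rw [area_count μ hs hf', ← measure_toMeasurable T,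
    ← setLIntegral_const, ← lintegral_indicator (measurableSet_toMeasurable μ T)]
  apply lintegral_mono_ae
  filter_upwards [hd] with y hy
  by_cases h : y ∈ toMeasurable μ T
  · rw [indicator_of_mem h]
    exact_mod_cast hy
  · have : s ∩ f ⁻¹' {y} = ∅ := eq_empty_of_forall_notMem fun x hx =>
      h (subset_toMeasurable _ _ (hx.2 ▸ hT hx.1))
    simp [this]

/-- the weighted form: a function of the image point -/
theorem area_comp {f : E → E} {s : Set E} {f' : E → E →L[ℝ] E} (hs : MeasurableSet s)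
    (hf' : ∀ x ∈ s, HasFDerivWithinAt f (f' x) s x) {h : E → ℝ≥0∞} (hh : Measurable h) :
    ∫⁻ x in s, ENNReal.ofReal |(f' x).det| * h (f x) ∂μ =
      ∫⁻ y, ((s ∩ f ⁻¹' {y}).encard : ℝ≥0∞) * h y ∂μ := by
  classical
  have hc : ContinuousOn f s := fun x hx => (hf' x hx).continuousWithinAt
  have hm : Measurable (s.piecewise f fun _ => 0) :=
    hc.measurable_piecewise continuousOn_const hs
  have := (area μ hs hf' (hh.comp hm)).1
  rw [setLIntegral_congr_fun hs (g := fun x => ENNReal.ofReal |(f' x).det| * h (f x))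
    (fun x hx => by simp only [comp, piecewise_eq_of_mem _ _ _ hx])] at this
  rw [this]
  refine lintegral_congr fun y => ?_
  rw [← ENNReal.tsum_set_one, ← ENNReal.tsum_mul_right]
  refine tsum_congr fun x => ?_
  have e : f x = y := x.2.2
  simp only [comp, piecewise_eq_of_mem _ _ _ x.2.1, e, one_mul]

end Pool.Agent.Lib.MP_823829_an.H98
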