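import Pool.Agent.Lib.MP_823829_an.H98.Area

/-! The area formula for holomorphic maps. -/

namespace Pool.Agent.Lib.MP_823829_an.H98

open MeasureTheory Set Function
open scoped ENNReal NNReal

variable {E : Type*} [NormedAddCommGroup E] [NormedSpace ℂ E] [FiniteDimensional ℂ E]

lemma det_real (A : E →L[ℂ] E) : (A.restrictScalars ℝ).det = ‖A.det‖ ^ 2 := by
  have := LinearMap.det_restrictScalars (R := ℝ) (S := ℂ) (f := (A : E →ₗ[ℂ] E))
  rw [Algebra.norm_complex_eq] at this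
  rw [← Complex.normSq_eq_norm_sq]
  exact this

variable [MeasurableSpace E] [BorelSpace E] (μ : Measure E) [μ.IsAddHaarMeasure]
  {f : E → E} {s : Set E} {f' : E → E →L[ℂ] E}

theorem areaC (hs : MeasurableSet s) (hf' : ∀ x ∈ s, HasFDerivWithinAt f (f' x) s x)
    {g : E → ℝ≥0∞} (hg : Measurable g) :
    ∫⁻ x in s, ENNReal.ofReal (‖(f' x).det‖ ^ 2) * g x ∂μ =
        ∫⁻ y, ∑' x : ↥(s ∩ f ⁻¹' {y}), g x ∂μ ∧
      AEMeasurable (fun y => ∑' x : ↥(s ∩ f ⁻¹' {y}), g x) μ := by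
  have := area μ hs (fun x hx => (hf' x hx).restrictScalars ℝ) hg
  simpa only [det_real, abs_sq] using this

theorem areaC_count (hs : MeasurableSet s) (hf' : ∀ x ∈ s, HasFDerivWithinAt f (f' x) s x) :
    ∫⁻ x in s, ENNReal.ofReal (‖(f' x).det‖ ^ 2) ∂μ =
      ∫⁻ y, ((s ∩ f ⁻¹' {y}).encard : ℝ≥0∞) ∂μ := by
  have := area_count μ hs (fun x hx => (hf' x hx).restrictScalars ℝ)
  simpa only [det_real, abs_sq] using this

theorem areaC_le {T : Set E} (hs : MeasurableSet s)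
    (hf' : ∀ x ∈ s, HasFDerivWithinAt f (f' x) s x) {d : ℕ}
    (hd : ∀ᵐ y ∂μ, (s ∩ f ⁻¹' {y}).encard ≤ d) (hT : MapsTo f s T) :
    ∫⁻ x in s, ENNReal.ofReal (‖(f' x).det‖ ^ 2) ∂μ ≤ d * μ T := by
  have := area_le μ hs (fun x hx => (hf' x hx).restrictScalars ℝ) hd hT
  simpa only [det_real, abs_sq] using this

theorem areaC_comp (hs : MeasurableSet s) (hf' : ∀ x ∈ s, HasFDerivWithinAt f (f' x) s x)
    {h : E → ℝ≥0∞} (hh : Measurable h) :
    ∫⁻ x in s, ENNReal.ofReal (‖(f' x).det‖ ^ 2) * h (f x) ∂μ =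
      ∫⁻ y, ((s ∩ f ⁻¹' {y}).encard : ℝ≥0∞) * h y ∂μ := by
  have := area_comp μ hs (fun x hx => (hf' x hx).restrictScalars ℝ) hh
  simpa only [det_real, abs_sq] using this

/-- lower bound: the image has measure at most the Jacobian integral -/
theorem imageC_le (hs : MeasurableSet s) (hf' : ∀ x ∈ s, HasFDerivWithinAt f (f' x) s x) :
    μ (f '' s) ≤ ∫⁻ x in s, ENNReal.ofReal (‖(f' x).det‖ ^ 2) ∂μ := by
  have := addHaar_image_le_lintegral_abs_det_fderiv μ hs
    (fun x hx => (hf' x hx).restrictScalars ℝ)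
  simpa only [det_real, abs_sq] using this

lemma det_eq_matrix {n : Type*} [Fintype n] [DecidableEq n] (A : (n → ℂ) →L[ℂ] (n → ℂ)) :
    A.det = (Matrix.of fun i j => A (Pi.single j 1) i).det := by
  rw [ContinuousLinearMap.det, ← LinearMap.det_toMatrix']
  congr 1

end Pool.Agent.Lib.MP_823829_an.H98
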