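import Pool.Agent.Lib.MP_823829_an.LA.Stmt
import Pool.Agent.Lib.MP_823829_an.H98.AreaC

/-! The area formula in the form used by the local analytic geometry. -/

namespace Pool.Agent.Lib.MP_823829_an.LA

open Set MeasureTheory
open scoped ENNReal

lemma enorm_sq_eq (z : ℂ) : ‖z‖ₑ ^ 2 = ENNReal.ofReal (‖z‖ ^ 2) := by
  rw [ENNReal.ofReal_pow (norm_nonneg _), ofReal_norm]

theorem areaS98 : AreaS where
  le := fun μ _ φ W A N M hW hφ hA hAW hN hM => by
    simp only [enorm_sq_eq]
    exact H98.areaC_le μ hA (fun x hx => ((hφ.differentiableAt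
      (hW.mem_nhds (hAW hx))).hasFDerivAt).hasFDerivWithinAt) (ae_of_all _ hM) hN
  ge := fun μ _ φ W A N d hW hφ hA hAW hN => by
    simp only [enorm_sq_eq]
    have hf : ∀ x ∈ A, HasFDerivWithinAt φ (fderiv ℂ φ x) A x := fun x hx =>
      ((hφ.differentiableAt (hW.mem_nhds (hAW hx))).hasFDerivAt).hasFDerivWithinAt
    obtain ⟨-, h2⟩ := H98.areaC μ hA hf (g := fun _ => 1) measurable_const
    simp only [ENNReal.tsum_set_one] at h2
    rw [H98.areaC_count μ hA hf]
    refine le_trans ?_ (mul_meas_ge_le_lintegral₀ h2 (d : ℝ≥0∞))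
    refine mul_le_mul_right (measure_mono fun t ht => ?_) _
    have := hN t ht
    simp only [mem_ofPred_eq]
    exact_mod_cast this

end Pool.Agent.Lib.MP_823829_an.LA
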